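import Mathlib
import Pool.Agent.D0H11.TW.Stm

/-!
# Project TW, module MINOR, part A: exponentials, product formula, fourth moment
-/

set_option autoImplicit false

namespace Pool.Agent.D0H73.TW

open Finset Filter MeasureTheory Pool.Agent.D0H11.TW

lemma ee_add (x y : ℝ) : ee (x + y) = ee x * ee y := by
  unfold ee; rw [← Complex.exp_add]; push_cast; ring_nf

lemma ee_zero : ee 0 = 1 := by simp [ee]

lemma norm_ee (x : ℝ) : ‖ee x‖ = 1 := by
  unfold ee
  rw [Complex.norm_exp]; simp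

lemma ee_conj (x : ℝ) : (starRingEnd ℂ) (ee x) = ee (-x) := by
  unfold ee
  rw [← Complex.exp_conj]
  have : (starRingEnd ℂ) (2 : ℂ) = 2 := by
    have := Complex.conj_ofReal 2
    simpa using this
  simp [Complex.conj_ofReal, this]

lemma continuous_ee_mul (n : ℤ) : Continuous fun θ : ℝ => ee (θ * n) := by
  unfold ee
  fun_prop

lemma integral_ee (n : ℤ) : ∫ θ in (0:ℝ)..1, ee (θ * n) = if n = 0 then 1 else 0 := by
  by_cases hn : n = 0
  · subst hn; simp [ee]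
  · rw [if_neg hn]
    have hc : (2 * Real.pi * Complex.I * n : ℂ) ≠ 0 := by
      have : (n : ℂ) ≠ 0 := by exact_mod_cast hn
      simp [this, Real.pi_ne_zero]
    have h1 : (fun θ : ℝ => ee (θ * n)) =
        fun θ : ℝ => Complex.exp ((2 * Real.pi * Complex.I * n : ℂ) * θ) := by
      funext θ; unfold ee; push_cast; ring_nf
    rw [h1, integral_exp_mul_complex hc]
    have h2 : Complex.exp ((2 * Real.pi * Complex.I * n : ℂ) * ((1 : ℝ) : ℂ)) = 1 := by
      have := Complex.exp_int_mul_two_pi_mul_I n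
      rw [← this]; push_cast; ring_nf
    rw [h2]; simp

/-- the one-dimensional sums -/
noncomputable def gi (T : ℕ) (u : Fin 4 → ℤ) (θ : ℝ) (i : Fin 4) : ℂ :=
  ∑ t ∈ Ico (0:ℤ) T, (if i = 0 then ((840*t+420+u 0 : ℤ) : ℂ) else 1) *
    ee (θ * (cc i * ph (u i) t : ℤ))

lemma GG_eq (T : ℕ) (u : Fin 4 → ℤ) (θ : ℝ) : GG T u θ = ∏ i, gi T u θ i := by
  unfold gi
  rw [Finset.prod_univ_sum]
  unfold GG D0H11.TW.box
  refine Finset.sum_congr rfl fun t _ => ?_
  rw [Fin.prod_univ_four]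
  have h1 : ee (θ * (qf u t : ℤ)) = ee (θ * (cc 0 * ph (u 0) (t 0) : ℤ)) *
      ee (θ * (cc 1 * ph (u 1) (t 1) : ℤ)) * ee (θ * (cc 2 * ph (u 2) (t 2) : ℤ)) *
      ee (θ * (cc 3 * ph (u 3) (t 3) : ℤ)) := by
    rw [← ee_add, ← ee_add, ← ee_add]
    congr 1
    unfold qf
    rw [Fin.sum_univ_four]
    push_cast
    ring
  rw [h1]
  simp only [wt, if_true, Fin.isValue, one_ne_zero, if_false, one_mul]
  have h2 : ¬ ((2 : Fin 4) = 0) := by decide
  have h3 : ¬ ((3 : Fin 4) = 0) := by decide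
  rw [if_neg h2, if_neg h3]
  push_cast
  ring

lemma continuous_gi (T : ℕ) (u : Fin 4 → ℤ) (i : Fin 4) : Continuous fun θ => gi T u θ i := by
  unfold gi
  refine continuous_finsetSum _ fun t _ => ?_
  exact continuous_const.mul (continuous_ee_mul _)

lemma continuous_GG (T : ℕ) (u : Fin 4 → ℤ) : Continuous fun θ => GG T u θ := by
  simp only [GG_eq]
  exact continuous_finsetProd _ fun i _ => continuous_gi T u i

/-- signs -/
def sg : Fin 4 → ℤ := ![1, 1, -1, -1]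

lemma norm_four (T : ℕ) (w : ℤ → ℝ) (c u : ℤ) (θ : ℝ) :
    ((‖∑ t ∈ Ico (0 : ℤ) T, (w t : ℂ) * ee (θ * (c * ph u t : ℤ))‖ ^ 4 : ℝ) : ℂ) =
      ∑ x ∈ box T, ((∏ i, w (x i) : ℝ) : ℂ) *
        ee (θ * (c * (ph u (x 0) + ph u (x 1) - ph u (x 2) - ph u (x 3)) : ℤ)) := by
  set S := ∑ t ∈ Ico (0 : ℤ) T, (w t : ℂ) * ee (θ * (c * ph u t : ℤ)) with hS
  have h1 : ((‖S‖ ^ 4 : ℝ) : ℂ) = S * S * (starRingEnd ℂ) S * (starRingEnd ℂ) S := by
    have h := Complex.mul_conj' S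
    calc ((‖S‖ ^ 4 : ℝ) : ℂ) = ((‖S‖ : ℂ) ^ 2) * ((‖S‖ : ℂ) ^ 2) := by push_cast; ring
      _ = (S * (starRingEnd ℂ) S) * (S * (starRingEnd ℂ) S) := by rw [h]
      _ = _ := by ring
  have h2 : (starRingEnd ℂ) S = ∑ t ∈ Ico (0 : ℤ) T, (w t : ℂ) * ee (θ * (-1 * c * ph u t : ℤ)) := by
    rw [hS, map_sum]
    refine Finset.sum_congr rfl fun t _ => ?_
    rw [map_mul, ee_conj, Complex.conj_ofReal]
    congr 2
    push_cast; ring
  have h3 : S * S * (starRingEnd ℂ) S * (starRingEnd ℂ) S =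
      ∏ i : Fin 4, ∑ t ∈ Ico (0 : ℤ) T, (w t : ℂ) * ee (θ * (sg i * c * ph u t : ℤ)) := by
    rw [Fin.prod_univ_four]
    have e0 : sg 0 = 1 := rfl
    have e1 : sg 1 = 1 := rfl
    have e2 : sg 2 = -1 := rfl
    have e3 : sg 3 = -1 := rfl
    rw [e0, e1, e2, e3, h2]
    simp only [one_mul]
    rw [← hS]
  rw [h1, h3, Finset.prod_univ_sum]
  unfold D0H11.TW.box
  refine Finset.sum_congr rfl fun x _ => ?_
  rw [Fin.prod_univ_four, Fin.prod_univ_four]
  have e0 : sg 0 = 1 := rfl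
  have e1 : sg 1 = 1 := rfl
  have e2 : sg 2 = -1 := rfl
  have e3 : sg 3 = -1 := rfl
  rw [e0, e1, e2, e3]
  have h4 : ee (θ * (c * (ph u (x 0) + ph u (x 1) - ph u (x 2) - ph u (x 3)) : ℤ)) =
      ee (θ * (1 * c * ph u (x 0) : ℤ)) * ee (θ * (1 * c * ph u (x 1) : ℤ)) *
      ee (θ * (-1 * c * ph u (x 2) : ℤ)) * ee (θ * (-1 * c * ph u (x 3) : ℤ)) := by
    rw [← ee_add, ← ee_add, ← ee_add]
    congr 1
    push_cast
    ring
  rw [h4]
  push_cast
  ring

lemma fourth (T : ℕ) (w : ℤ → ℝ) (W : ℝ) (hw0 : ∀ t ∈ Ico (0:ℤ) T, 0 ≤ w t)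
    (hw : ∀ t ∈ Ico (0:ℤ) T, w t ≤ W) (c u : ℤ) (hc : c ≠ 0) :
    ∫ θ in (0:ℝ)..1, ‖∑ t ∈ Ico (0 : ℤ) T, (w t : ℂ) * ee (θ * (c * ph u t : ℤ))‖ ^ 4 ≤
      W ^ 4 * ((((box T).filter fun t => ph u (t 0) + ph u (t 1) = ph u (t 2) + ph u (t 3)).card
        : ℕ) : ℝ) := by
  have h1 : ((∫ θ in (0:ℝ)..1, ‖∑ t ∈ Ico (0 : ℤ) T, (w t : ℂ) * ee (θ * (c * ph u t : ℤ))‖ ^ 4 : ℝ) : ℂ) =
      ((∑ x ∈ box T, (∏ i, w (x i)) *
        (if ph u (x 0) + ph u (x 1) = ph u (x 2) + ph u (x 3) then 1 else 0) : ℝ) : ℂ) := by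
    rw [← intervalIntegral.integral_ofReal]
    simp only [norm_four]
    rw [intervalIntegral.integral_finsetSum]
    · rw [Complex.ofReal_sum]
      refine Finset.sum_congr rfl fun x _ => ?_
      rw [intervalIntegral.integral_const_mul, integral_ee]
      rw [Complex.ofReal_mul]
      congr 1
      by_cases h : ph u (x 0) + ph u (x 1) = ph u (x 2) + ph u (x 3)
      · have : c * (ph u (x 0) + ph u (x 1) - ph u (x 2) - ph u (x 3)) = 0 := by
          rw [h]; ring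
        rw [if_pos this, if_pos h]; simp
      · have : ¬ c * (ph u (x 0) + ph u (x 1) - ph u (x 2) - ph u (x 3)) = 0 := by
          intro h0
          rcases mul_eq_zero.mp h0 with h0 | h0
          · exact hc h0
          · exact h (by linarith)
        rw [if_neg this, if_neg h]; simp
    · intro x _
      exact (continuous_const.mul (continuous_ee_mul _)).intervalIntegrable _ _
  have h2 := Complex.ofReal_injective h1
  rw [h2]
  have h3 : ∀ x ∈ box T, (∏ i, w (x i)) *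
        (if ph u (x 0) + ph u (x 1) = ph u (x 2) + ph u (x 3) then (1:ℝ) else 0) ≤
      W ^ 4 * (if ph u (x 0) + ph u (x 1) = ph u (x 2) + ph u (x 3) then (1:ℝ) else 0) := by
    intro x hx
    have hx' : ∀ i, x i ∈ Ico (0:ℤ) T := by
      intro i
      exact (Fintype.mem_piFinset.mp hx) i
    refine mul_le_mul_of_nonneg_right ?_ (by split_ifs <;> norm_num)
    calc ∏ i, w (x i) ≤ ∏ _i : Fin 4, W :=
          Finset.prod_le_prod (fun i _ => hw0 _ (hx' i)) (fun i _ => hw _ (hx' i))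
      _ = W ^ 4 := by simp
  refine (Finset.sum_le_sum h3).trans (le_of_eq ?_)
  rw [← Finset.mul_sum, Finset.sum_boole]

end Pool.Agent.D0H73.TW
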