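import Mathlib
import Pool.Agent.D0H11.TW.Stm
import Pool.Agent.D0H73.TW.MinorA

/-!
# Project TW, module MINOR, part B: the supremum on the minor arcs
-/

set_option autoImplicit false

namespace Pool.Agent.D0H73.TW

open Finset Filter MeasureTheory Pool.Agent.D0H11.TW

lemma sum_Ico_int (T : ℕ) (f : ℤ → ℂ) : ∑ t ∈ Ico (0:ℤ) T, f t = ∑ n ∈ range T, f n := by
  refine Finset.sum_nbij' (fun t => t.toNat) (fun n => (n:ℤ)) ?_ ?_ ?_ ?_ ?_
  · intro a ha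
    rw [Finset.mem_Ico] at ha
    rw [Finset.mem_range]; omega
  · intro a ha
    rw [Finset.mem_range] at ha
    rw [Finset.mem_Ico]; omega
  · intro a ha
    rw [Finset.mem_Ico] at ha
    change ((a.toNat : ℕ) : ℤ) = a
    omega
  · intro a ha
    simp
  · intro a ha
    rw [Finset.mem_Ico] at ha
    have : ((a.toNat : ℕ) : ℤ) = a := by omega
    rw [this]

lemma abel (b : ℕ → ℂ) (α : ℂ) (T : ℕ) :
    ∑ n ∈ range T, (α + 840 * n) * b n =
      (α + 840 * T) * (∑ n ∈ range T, b n) - 840 * ∑ k ∈ range T, ∑ n ∈ range (k+1), b n := by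
  induction T with
  | zero => simp
  | succ T ih =>
    rw [Finset.sum_range_succ, ih, Finset.sum_range_succ (fun k => ∑ n ∈ range (k+1), b n) T,
      Finset.sum_range_succ b T]
    push_cast
    ring

lemma abel_bound (b : ℕ → ℂ) (α M : ℝ) (hα : 0 ≤ α) (hα2 : α ≤ 1260) (T : ℕ) (hT : 1 ≤ T)
    (hM : ∀ k ≤ T, ‖∑ n ∈ range k, b n‖ ≤ M) :
    ‖∑ n ∈ range T, ((α : ℂ) + 840 * n) * b n‖ ≤ 2940 * T * M := by
  rw [abel]
  have hM0 : 0 ≤ M := le_trans (norm_nonneg _) (hM 0 (Nat.zero_le _))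
  have hT' : (1 : ℝ) ≤ T := by exact_mod_cast hT
  have h1 : ‖((α : ℂ) + 840 * T) * (∑ n ∈ range T, b n)‖ ≤ (α + 840 * T) * M := by
    rw [norm_mul]
    have : ‖((α : ℂ) + 840 * T)‖ = α + 840 * T := by
      have h : ((α : ℂ) + 840 * T) = ((α + 840 * T : ℝ) : ℂ) := by push_cast; ring
      rw [h, Complex.norm_real, Real.norm_of_nonneg (by positivity)]
    rw [this]
    exact mul_le_mul_of_nonneg_left (hM T le_rfl) (by positivity)
  have h2 : ‖(840 : ℂ) * ∑ k ∈ range T, ∑ n ∈ range (k+1), b n‖ ≤ 840 * (T * M) := by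
    rw [norm_mul]
    have : ‖(840 : ℂ)‖ = 840 := by simp
    rw [this]
    refine mul_le_mul_of_nonneg_left ?_ (by norm_num)
    refine (norm_sum_le _ _).trans ?_
    calc ∑ k ∈ range T, ‖∑ n ∈ range (k+1), b n‖ ≤ ∑ k ∈ range T, M :=
          Finset.sum_le_sum fun k hk => hM _ (by rw [Finset.mem_range] at hk; omega)
      _ = T * M := by simp
  refine (norm_sub_le _ _).trans ?_
  have h3 : α * M ≤ 1260 * T * M := by
    have : α ≤ 1260 * T := by nlinarith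
    exact mul_le_mul_of_nonneg_right this hM0
  nlinarith [mul_nonneg (le_trans zero_le_one hT') hM0]

/-- Dirichlet approximation off the major arcs -/
lemma dirichlet (κ : ℝ) (h0 : 0 < κ) (h1 : κ ≤ 1/10) (T : ℕ) (hT : 2 ≤ T) (θ : ℝ)
    (hθ : θ ∉ Maj ⌊(T:ℝ)^κ⌋₊ ((T:ℝ)^(κ-2))) :
    ∃ (q : ℕ) (a : ℤ), 1 ≤ q ∧ IsCoprime a (q : ℤ) ∧ |θ - a / (q : ℝ)| ≤ 1 / (q : ℝ) ^ 2 ∧
      (T : ℝ) ^ κ ≤ q ∧ (q : ℝ) ≤ 2 * (T : ℝ) ^ (2 - κ) := by
  have hT1 : (1 : ℝ) ≤ T := by exact_mod_cast (by omega : 1 ≤ T)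
  have hT0 : (0 : ℝ) < T := by linarith
  have hη : 0 < (T:ℝ)^(2-κ) := Real.rpow_pos_of_pos hT0 _
  have hη1 : 1 ≤ (T:ℝ)^(2-κ) := Real.one_le_rpow hT1 (by linarith)
  set n := ⌈(T:ℝ)^(2-κ)⌉₊ with hn
  have hnpos : 0 < n := Nat.ceil_pos.mpr hη
  have hnle : (T:ℝ)^(2-κ) ≤ n := Nat.le_ceil _
  have hnlt : (n : ℝ) < (T:ℝ)^(2-κ) + 1 := Nat.ceil_lt_add_one hη.le
  obtain ⟨r, hr, hrn⟩ := Real.exists_rat_abs_sub_le_and_den_le θ hnpos
  have hq1 : 1 ≤ r.den := r.den_pos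
  have hq0 : (0 : ℝ) < r.den := by exact_mod_cast r.den_pos
  have hcop : IsCoprime r.num (r.den : ℤ) := by
    rw [Int.isCoprime_iff_nat_coprime]
    simpa using r.reduced
  have hrr : (r : ℝ) = (r.num : ℝ) / (r.den : ℝ) := by
    exact_mod_cast (Rat.num_div_den r).symm
  have hrn' : (r.den : ℝ) ≤ n := by exact_mod_cast hrn
  rw [hrr] at hr
  refine ⟨r.den, r.num, hq1, hcop, ?_, ?_, ?_⟩
  · refine hr.trans ?_
    rw [sq]
    refine one_div_le_one_div_of_le (by positivity) ?_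
    refine mul_le_mul_of_nonneg_right (by linarith) hq0.le
  · by_contra hlt
    push Not at hlt
    apply hθ
    refine ⟨r.den, ?_, r.num, hcop, ?_⟩
    · rw [Finset.mem_Icc]
      exact ⟨hq1, Nat.le_floor hlt.le⟩
    · refine hr.trans ?_
      have e : (T:ℝ)^(κ-2) = 1 / (T:ℝ)^(2-κ) := by
        rw [one_div, ← Real.rpow_neg hT0.le]; congr 1; ring
      rw [e]
      refine one_div_le_one_div_of_le hη ?_
      have : (1 : ℝ) ≤ r.den := by exact_mod_cast hq1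
      calc (T:ℝ)^(2-κ) ≤ (n + 1) * 1 := by linarith
        _ ≤ (n + 1) * (r.den : ℝ) := mul_le_mul_of_nonneg_left this (by positivity)
  · linarith

lemma log_bound (δ : ℝ) (hδ : 0 < δ) (T : ℝ) (hT : 1 ≤ T) : 3 * Real.log T + 2 ≤ (3 / δ + 2) * T ^ δ := by
  have h1 := Real.log_le_rpow_div (by linarith : (0:ℝ) ≤ T) hδ
  have h2 : 1 ≤ T ^ δ := Real.one_le_rpow hT hδ.le
  have : (3 / δ + 2) * T ^ δ = 3 * (T ^ δ / δ) + 2 * T ^ δ := by ring
  rw [this]; linarith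

/-- all partial sums are small off the major arcs -/
lemma weyl_minor (hW : S_WEYL) (κ δ : ℝ) (h0 : 0 < κ) (h1 : κ ≤ 1/10) (hδ : 0 < δ) :
    ∃ C : ℝ, 1 ≤ C ∧ ∀ (T : ℕ) (θ : ℝ), 2 ≤ T → θ ∉ Maj ⌊(T:ℝ)^κ⌋₊ ((T:ℝ)^(κ-2)) →
      ∀ (c u : ℤ), 1 ≤ c → c ≤ 7 → 0 ≤ u → u < 840 → ∀ k ≤ T,
        ‖∑ n ∈ range k, ee (θ * (c * ph u (n : ℤ) : ℤ))‖ ^ 2 ≤ C * (T : ℝ) ^ (2 - κ + δ) := by
  obtain ⟨C0, hC0, hW⟩ := hW
  refine ⟨max C0 1 * (4 * (3 / δ + 2)), ?_, ?_⟩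
  · have : 1 ≤ max C0 1 := le_max_right _ _
    have h2 : (1 : ℝ) ≤ 4 * (3 / δ + 2) := by
      have : 0 < 3 / δ := by positivity
      linarith
    nlinarith
  intro T θ hT hθ c u hc1 hc7 hu0 hu k hk
  obtain ⟨q, a, hq1, hcop, happ, hqlo, hqhi⟩ := dirichlet κ h0 h1 T hT θ hθ
  have hT1 : (1 : ℝ) ≤ T := by exact_mod_cast (by omega : 1 ≤ T)
  have hT0 : (0 : ℝ) < T := by linarith
  have hq0 : (0 : ℝ) < q := by exact_mod_cast hq1
  have hq1' : (1 : ℝ) ≤ q := by exact_mod_cast hq1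
  have hlogT : 0 ≤ Real.log T := Real.log_nonneg hT1
  have hlogq : 0 ≤ Real.log q := Real.log_nonneg hq1'
  have hC1 : (1 : ℝ) ≤ max C0 1 := le_max_right _ _
  have hTκ : 0 < (T : ℝ) ^ κ := Real.rpow_pos_of_pos hT0 _
  -- X
  have hX1 : (T : ℝ) ^ 2 / q + T + q ≤ 4 * (T : ℝ) ^ (2 - κ) := by
    have e1 : (T : ℝ) ^ 2 / q ≤ (T : ℝ) ^ (2 - κ) := by
      rw [Real.rpow_sub hT0, Real.rpow_two]
      exact div_le_div_of_nonneg_left (by positivity) hTκ hqlo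
    have e2 : (T : ℝ) ≤ (T : ℝ) ^ (2 - κ) := by
      calc (T : ℝ) = (T : ℝ) ^ (1 : ℝ) := (Real.rpow_one _).symm
        _ ≤ (T : ℝ) ^ (2 - κ) := Real.rpow_le_rpow_of_exponent_le hT1 (by linarith)
    linarith
  have hX2 : Real.log T + Real.log q + 1 ≤ 3 * Real.log T + 2 := by
    have e1 : Real.log q ≤ Real.log 2 + (2 - κ) * Real.log T := by
      calc Real.log q ≤ Real.log (2 * (T : ℝ) ^ (2 - κ)) := Real.log_le_log hq0 hqhi
        _ = _ := by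
          rw [Real.log_mul (by norm_num) (Real.rpow_pos_of_pos hT0 _).ne', Real.log_rpow hT0]
    have e2 : Real.log 2 ≤ 1 := by
      have := Real.log_two_lt_d9; linarith
    nlinarith
  have hX3 := log_bound δ hδ T hT1
  have hXX : ((T : ℝ) ^ 2 / q + T + q) * (Real.log T + Real.log q + 1) ≤
      (4 * (3 / δ + 2)) * (T : ℝ) ^ (2 - κ + δ) := by
    calc ((T : ℝ) ^ 2 / q + T + q) * (Real.log T + Real.log q + 1) ≤
        (4 * (T : ℝ) ^ (2 - κ)) * ((3 / δ + 2) * (T : ℝ) ^ δ) := by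
          refine mul_le_mul hX1 (hX2.trans hX3) (by positivity) (by positivity)
      _ = _ := by rw [Real.rpow_add hT0]; ring
  have hfin : max C0 1 * (((T : ℝ) ^ 2 / q + T + q) * (Real.log T + Real.log q + 1)) ≤
      max C0 1 * (4 * (3 / δ + 2)) * (T : ℝ) ^ (2 - κ + δ) := by
    rw [mul_assoc]
    exact mul_le_mul_of_nonneg_left hXX (by linarith)
  refine le_trans ?_ hfin
  by_cases hk2 : 2 ≤ k
  · have := hW k q a c u θ hk2 hq1 hcop happ hc1 hc7 hu0 hu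
    rw [sum_Ico_int] at this
    refine this.trans ?_
    have hk0 : (0 : ℝ) < k := by exact_mod_cast (by omega : 0 < k)
    have hkT : (k : ℝ) ≤ T := by exact_mod_cast hk
    have hk1 : (1 : ℝ) ≤ k := by exact_mod_cast (by omega : 1 ≤ k)
    have hlk : Real.log k ≤ Real.log T := Real.log_le_log hk0 hkT
    have hlk0 : 0 ≤ Real.log k := Real.log_nonneg hk1
    rw [mul_assoc]
    have e1 : (k : ℝ) ^ 2 / q ≤ (T : ℝ) ^ 2 / q := by
      refine div_le_div_of_nonneg_right ?_ hq0.le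
      exact pow_le_pow_left₀ hk0.le hkT 2
    refine mul_le_mul (le_max_left _ _) ?_ (by positivity) (by linarith)
    refine mul_le_mul (by linarith) (by linarith) (by positivity) (by positivity)
  · have hk1 : k = 0 ∨ k = 1 := by omega
    have hone : ‖∑ n ∈ range k, ee (θ * (c * ph u (n : ℤ) : ℤ))‖ ^ 2 ≤ 1 := by
      rcases hk1 with rfl | rfl
      · simp
      · rw [Finset.sum_range_one, norm_ee]; norm_num
    refine hone.trans ?_
    have e1 : 1 ≤ (T : ℝ) ^ 2 / q + T + q := by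
      have : 0 ≤ (T : ℝ) ^ 2 / q := by positivity
      linarith
    have e2 : 1 ≤ Real.log T + Real.log q + 1 := by linarith
    have e3 : 1 ≤ ((T : ℝ) ^ 2 / q + T + q) * (Real.log T + Real.log q + 1) := by
      nlinarith
    nlinarith

lemma cc_bounds (i : Fin 4) : 1 ≤ cc i ∧ cc i ≤ 7 := by
  fin_cases i <;> simp [cc]

lemma sup_bound (hW : S_WEYL) (κ ε : ℝ) (h0 : 0 < κ) (h1 : κ ≤ 1/10) (hε : 0 < ε) :
    ∃ C : ℝ, 0 < C ∧ ∀ (T : ℕ) (u : Fin 4 → ℤ) (θ : ℝ), 2 ≤ T → InU u →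
      θ ∉ Maj ⌊(T:ℝ)^κ⌋₊ ((T:ℝ)^(κ-2)) → ‖GG T u θ‖ ≤ C * (T:ℝ)^(5 - 2*κ + ε) := by
  obtain ⟨C, hC, hw⟩ := weyl_minor hW κ (ε/2) h0 h1 (by positivity)
  refine ⟨2940 * C ^ 2, by positivity, ?_⟩
  intro T u θ hT hu hθ
  have hT1 : (1 : ℝ) ≤ T := by exact_mod_cast (by omega : 1 ≤ T)
  have hT0 : (0 : ℝ) < T := by linarith
  set M2 : ℝ := C * (T : ℝ) ^ (2 - κ + ε/2) with hM2
  have hM20 : 0 ≤ M2 := by positivity
  set M : ℝ := Real.sqrt M2 with hM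
  have hMM : M ^ 4 = M2 ^ 2 := by
    have : M ^ 2 = M2 := Real.sq_sqrt hM20
    rw [show M ^ 4 = (M ^ 2) ^ 2 by ring, this]
  have hsum : ∀ i : Fin 4, ∀ k ≤ T, ‖∑ n ∈ range k, ee (θ * (cc i * ph (u i) (n : ℤ) : ℤ))‖ ≤ M := by
    intro i k hk
    have := hw T θ hT hθ (cc i) (u i) (cc_bounds i).1 (cc_bounds i).2 (hu i).1 (hu i).2 k hk
    exact Real.le_sqrt_of_sq_le this
  have hM0 : 0 ≤ M := Real.sqrt_nonneg _
  have hi : ∀ i : Fin 4, i ≠ 0 → ‖gi T u θ i‖ ≤ M := by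
    intro i hi0
    unfold gi
    rw [sum_Ico_int]
    simp only [hi0, if_false, one_mul]
    exact hsum i T le_rfl
  have h00 : ‖gi T u θ 0‖ ≤ 2940 * T * M := by
    unfold gi
    rw [sum_Ico_int]
    have := abel_bound (fun n => ee (θ * (cc 0 * ph (u 0) (n : ℤ) : ℤ))) ((420 + u 0 : ℤ) : ℝ) M
      (by have := (hu 0).1; exact_mod_cast (by omega : 0 ≤ 420 + u 0))
      (by have := (hu 0).2; exact_mod_cast (by omega : 420 + u 0 ≤ 1260)) T (by omega) (hsum 0)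
    refine le_trans (le_of_eq ?_) this
    congr 1
    refine Finset.sum_congr rfl fun n _ => ?_
    simp only [if_true]
    push_cast
    ring
  rw [GG_eq, norm_prod, Fin.prod_univ_four]
  calc ‖gi T u θ 0‖ * ‖gi T u θ 1‖ * ‖gi T u θ 2‖ * ‖gi T u θ 3‖ ≤
      (2940 * T * M) * M * M * M := by
        gcongr
        · exact hi 1 (by decide)
        · exact hi 2 (by decide)
        · exact hi 3 (by decide)
    _ = 2940 * T * M ^ 4 := by ring
    _ = 2940 * T * M2 ^ 2 := by rw [hMM]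
    _ = 2940 * C ^ 2 * ((T : ℝ) * ((T : ℝ) ^ (2 - κ + ε/2)) ^ 2) := by rw [hM2]; ring
    _ = 2940 * C ^ 2 * (T:ℝ)^(5 - 2*κ + ε) := by
      congr 1
      rw [← Real.rpow_natCast ((T : ℝ) ^ (2 - κ + ε/2)) 2, ← Real.rpow_mul hT0.le]
      nth_rewrite 1 [← Real.rpow_one (T : ℝ)]
      rw [← Real.rpow_add hT0]
      congr 1
      push_cast
      ring

end Pool.Agent.D0H73.TW
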