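import Mathlib
import Pool.Agent.D0H11.TW.Stm
import Pool.Agent.D0H73.TW.MinorA
import Pool.Agent.D0H73.TW.MinorB

/-!
# Project TW, module MINOR: mean square over the minor arcs
-/

set_option autoImplicit false

namespace Pool.Agent.D0H73.TW

open Finset Filter MeasureTheory Pool.Agent.D0H11.TW

lemma measurable_Maj (P : ℕ) (η : ℝ) : MeasurableSet (Maj P η) := by
  have h : Maj P η = ⋃ q ∈ Finset.Icc 1 P, ⋃ a : ℤ, ⋃ (_ : IsCoprime a (q : ℤ)),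
      {θ : ℝ | |θ - a / (q : ℝ)| ≤ η} := by
    ext θ
    simp only [Maj, Set.mem_ofPred_eq, Set.mem_iUnion, exists_prop]
  rw [h]
  refine Finset.measurableSet_biUnion _ fun q _ => ?_
  refine MeasurableSet.iUnion fun a => MeasurableSet.iUnion fun _ => ?_
  exact (isClosed_le (by fun_prop) continuous_const).measurableSet

lemma amgm (a b c d : ℝ) : a * b * c * d ≤ (a ^ 4 + b ^ 4 + c ^ 4 + d ^ 4) / 4 := by
  nlinarith [sq_nonneg (a*b - c*d), sq_nonneg (a^2-b^2), sq_nonneg (c^2-d^2)]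

lemma int_GG (hF : S_FOUR) (ε : ℝ) (hε : 0 < ε) : ∃ C : ℝ, 0 < C ∧ ∀ (T : ℕ) (u : Fin 4 → ℤ),
    2 ≤ T → InU u → ∫ θ in (0:ℝ)..1, ‖GG T u θ‖ ≤ C * (T : ℝ) ^ (3 + ε) := by
  obtain ⟨C, hC, hf⟩ := hF ε hε
  refine ⟨(2100 ^ 4 + 3) * C / 4, by positivity, ?_⟩
  intro T u hT hu
  have hT1 : (1 : ℝ) ≤ T := by exact_mod_cast (by omega : 1 ≤ T)
  have hT0 : (0 : ℝ) < T := by linarith
  have hcc : ∀ i : Fin 4, cc i ≠ 0 := fun i => by have := (cc_bounds i).1; omega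
  have hX : ∀ i : Fin 4, ((((box T).filter fun t => ph (u i) (t 0) + ph (u i) (t 1) =
      ph (u i) (t 2) + ph (u i) (t 3)).card : ℕ) : ℝ) ≤ C * (T : ℝ) ^ (2 + ε) :=
    fun i => hf T (u i) (by omega) (hu i).1 (hu i).2
  have h0 : ∫ θ in (0:ℝ)..1, ‖gi T u θ 0‖ ^ 4 ≤ (2100 * T) ^ 4 * (C * (T : ℝ) ^ (2 + ε)) := by
    have := fourth T (fun t => ((840 * t + 420 + u 0 : ℤ) : ℝ)) (2100 * T)
      (by
        intro t ht
        rw [Finset.mem_Ico] at ht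
        have := (hu 0).1
        exact_mod_cast (by omega : 0 ≤ 840 * t + 420 + u 0))
      (by
        intro t ht
        rw [Finset.mem_Ico] at ht
        have := (hu 0).2
        exact_mod_cast (by omega : 840 * t + 420 + u 0 ≤ 2100 * T)) (cc 0) (u 0) (hcc 0)
    refine le_trans (le_of_eq ?_) (this.trans (mul_le_mul_of_nonneg_left (hX 0) (by positivity)))
    refine intervalIntegral.integral_congr fun θ _ => ?_
    change ‖gi T u θ 0‖ ^ 4 = _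
    congr 2
  have hi : ∀ i : Fin 4, i ≠ 0 → ∫ θ in (0:ℝ)..1, ‖gi T u θ i‖ ^ 4 ≤ C * (T : ℝ) ^ (2 + ε) := by
    intro i hi0
    have := fourth T (fun _ => 1) 1 (fun _ _ => zero_le_one) (fun _ _ => le_rfl) (cc i) (u i) (hcc i)
    rw [one_pow, one_mul] at this
    refine le_trans (le_of_eq ?_) (this.trans (hX i))
    congr 1
    funext θ
    unfold gi
    simp [hi0]
  have hcont : ∀ i : Fin 4, IntervalIntegrable (fun θ => ‖gi T u θ i‖ ^ 4) volume 0 1 :=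
    fun i => ((continuous_gi T u i).norm.pow 4).intervalIntegrable _ _
  have hpt : ∀ θ ∈ Set.Icc (0:ℝ) 1, ‖GG T u θ‖ ≤ (T : ℝ) / 4 * (‖gi T u θ 0‖ ^ 4 / (T : ℝ) ^ 4 +
      ‖gi T u θ 1‖ ^ 4 + ‖gi T u θ 2‖ ^ 4 + ‖gi T u θ 3‖ ^ 4) := by
    intro θ _
    rw [GG_eq, norm_prod, Fin.prod_univ_four]
    have := amgm (‖gi T u θ 0‖ / T) ‖gi T u θ 1‖ ‖gi T u θ 2‖ ‖gi T u θ 3‖
    have e : ‖gi T u θ 0‖ * ‖gi T u θ 1‖ * ‖gi T u θ 2‖ * ‖gi T u θ 3‖ =
        (T : ℝ) * (‖gi T u θ 0‖ / T * ‖gi T u θ 1‖ * ‖gi T u θ 2‖ * ‖gi T u θ 3‖) := by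
      field_simp
    rw [e]
    calc _ ≤ (T : ℝ) * (((‖gi T u θ 0‖ / T) ^ 4 + ‖gi T u θ 1‖ ^ 4 + ‖gi T u θ 2‖ ^ 4 +
          ‖gi T u θ 3‖ ^ 4) / 4) := mul_le_mul_of_nonneg_left this hT0.le
      _ = _ := by rw [div_pow]; ring
  calc ∫ θ in (0:ℝ)..1, ‖GG T u θ‖ ≤ ∫ θ in (0:ℝ)..1, (T : ℝ) / 4 * (‖gi T u θ 0‖ ^ 4 / (T : ℝ) ^ 4 +
      ‖gi T u θ 1‖ ^ 4 + ‖gi T u θ 2‖ ^ 4 + ‖gi T u θ 3‖ ^ 4) := by
        refine intervalIntegral.integral_mono_on zero_le_one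
          ((continuous_GG T u).norm.intervalIntegrable _ _) ?_ hpt
        exact (((((hcont 0).div_const _).add (hcont 1)).add (hcont 2)).add (hcont 3)).const_mul _
    _ = (T : ℝ) / 4 * ((∫ θ in (0:ℝ)..1, ‖gi T u θ 0‖ ^ 4) / (T : ℝ) ^ 4 +
        (∫ θ in (0:ℝ)..1, ‖gi T u θ 1‖ ^ 4) + (∫ θ in (0:ℝ)..1, ‖gi T u θ 2‖ ^ 4) +
        (∫ θ in (0:ℝ)..1, ‖gi T u θ 3‖ ^ 4)) := by
        rw [intervalIntegral.integral_const_mul, intervalIntegral.integral_add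
          ((((hcont 0).div_const _).add (hcont 1)).add (hcont 2)) (hcont 3),
          intervalIntegral.integral_add (((hcont 0).div_const _).add (hcont 1)) (hcont 2),
          intervalIntegral.integral_add ((hcont 0).div_const _) (hcont 1),
          intervalIntegral.integral_div]
    _ ≤ (T : ℝ) / 4 * ((2100 * T) ^ 4 * (C * (T : ℝ) ^ (2 + ε)) / (T : ℝ) ^ 4 +
        C * (T : ℝ) ^ (2 + ε) + C * (T : ℝ) ^ (2 + ε) + C * (T : ℝ) ^ (2 + ε)) := by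
        refine mul_le_mul_of_nonneg_left ?_ (by positivity)
        have e0 := div_le_div_of_nonneg_right h0 (by positivity : (0:ℝ) ≤ (T : ℝ) ^ 4)
        have e1 := hi 1 (by decide)
        have e2 := hi 2 (by decide)
        have e3 := hi 3 (by decide)
        linarith
    _ = (2100 ^ 4 + 3) * C / 4 * ((T : ℝ) * (T : ℝ) ^ (2 + ε)) := by
        field_simp
        ring
    _ = (2100 ^ 4 + 3) * C / 4 * (T : ℝ) ^ (3 + ε) := by
        congr 1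
        nth_rewrite 1 [← Real.rpow_one (T : ℝ)]
        rw [← Real.rpow_add hT0]
        congr 1
        ring

theorem minor (hW : S_WEYL) (hF : S_FOUR) : S_MINOR := by
  intro κ ε h0 h1 hε
  obtain ⟨C1, hC1, hsup⟩ := sup_bound hW κ (ε/2) h0 h1 (by positivity)
  obtain ⟨C2, hC2, hint⟩ := int_GG hF (ε/2) (by positivity)
  refine ⟨C1 * C2, by positivity, ?_⟩
  intro T u hT hu
  have hT1 : (1 : ℝ) ≤ T := by exact_mod_cast (by omega : 1 ≤ T)
  have hT0 : (0 : ℝ) < T := by linarith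
  set S : Set ℝ := Set.Icc (0 : ℝ) 1 \ Maj ⌊(T : ℝ) ^ κ⌋₊ ((T : ℝ) ^ (κ - 2)) with hS
  have hSm : MeasurableSet S := measurableSet_Icc.diff (measurable_Maj _ _)
  have hSs : S ⊆ Set.Icc (0:ℝ) 1 := Set.sdiff_subset
  set K : ℝ := C1 * (T:ℝ)^(5 - 2*κ + ε/2) with hK
  have hK0 : 0 ≤ K := by positivity
  have hI1 : IntegrableOn (fun θ => ‖GG T u θ‖) (Set.Icc (0:ℝ) 1) :=
    (continuous_GG T u).norm.continuousOn.integrableOn_compact isCompact_Icc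
  have hI2 : IntegrableOn (fun θ => ‖GG T u θ‖ ^ 2) (Set.Icc (0:ℝ) 1) :=
    ((continuous_GG T u).norm.pow 2).continuousOn.integrableOn_compact isCompact_Icc
  calc ∫ θ in S, ‖GG T u θ‖ ^ 2 ≤ ∫ θ in S, K * ‖GG T u θ‖ := by
        refine setIntegral_mono_on (hI2.mono_set hSs) ((hI1.mono_set hSs).const_mul K) hSm ?_
        intro θ hθ
        rw [sq]
        exact mul_le_mul_of_nonneg_right (hsup T u θ hT hu hθ.2) (norm_nonneg _)
    _ = K * ∫ θ in S, ‖GG T u θ‖ := by rw [integral_const_mul]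
    _ ≤ K * ∫ θ in Set.Icc (0:ℝ) 1, ‖GG T u θ‖ := by
        refine mul_le_mul_of_nonneg_left ?_ hK0
        exact setIntegral_mono_set hI1 (Eventually.of_forall fun θ => norm_nonneg _)
          (LE.le.eventuallyLE hSs)
    _ = K * ∫ θ in (0:ℝ)..1, ‖GG T u θ‖ := by
        rw [integral_Icc_eq_integral_Ioc, intervalIntegral.integral_of_le zero_le_one]
    _ ≤ K * (C2 * (T : ℝ) ^ (3 + ε/2)) := mul_le_mul_of_nonneg_left (hint T u hT hu) hK0
    _ = C1 * C2 * ((T:ℝ)^(5 - 2*κ + ε/2) * (T : ℝ) ^ (3 + ε/2)) := by rw [hK]; ring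
    _ = C1 * C2 * (T : ℝ) ^ (8 - 2 * κ + ε) := by
        rw [← Real.rpow_add hT0]
        congr 2
        ring

end Pool.Agent.D0H73.TW
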