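import Mathlib
import Pool.Agent.D0H11.TW.Stm

/-!
# Project TW, module THMA: almost all `m` have the expected number of representations
-/

set_option autoImplicit false

namespace Pool.Agent.D0H73.TW

open Finset Filter MeasureTheory Pool.Agent.D0H11.TW


lemma rs_congr (q : ℕ) (hq : 1 ≤ q) (n n' : ℤ) (h : (q : ℤ) ∣ n - n') : rs q n = rs q n' := by
  unfold rs
  refine Finset.sum_congr rfl fun a _ => ?_
  obtain ⟨k, hk⟩ := h
  have hn : (n : ℝ) = n' + q * k := by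
    have : n = n' + q * k := by linarith
    rw [this]; push_cast; ring
  have hq0 : (q : ℝ) ≠ 0 := by exact_mod_cast (by omega : q ≠ 0)
  have e : 2 * Real.pi * a * n / q = 2 * Real.pi * a * n' / q + ((a * k : ℤ) : ℝ) * (2 * Real.pi) := by
    rw [hn]; push_cast; field_simp
  rw [e, Real.cos_add_int_mul_two_pi]

lemma abs_rs_le (q : ℕ) (n : ℤ) : |rs q n| ≤ q := by
  unfold rs
  refine (Finset.abs_sum_le_sum_abs _ _).trans ?_
  calc ∑ a ∈ (range q).filter (fun a => Nat.Coprime a q), |Real.cos (2 * Real.pi * a * n / q)|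
      ≤ ∑ a ∈ (range q).filter (fun a => Nat.Coprime a q), (1 : ℝ) :=
        Finset.sum_le_sum fun a _ => Real.abs_cos_le_one _
    _ ≤ ∑ a ∈ range q, (1 : ℝ) :=
        Finset.sum_le_sum_of_subset_of_nonneg (Finset.filter_subset _ _) (fun _ _ _ => zero_le_one)
    _ = q := by simp

lemma qf_congr (q : ℤ) (u t s : Fin 4 → ℤ) (h : ∀ i, q ∣ t i - s i) : q ∣ qf u t - qf u s := by
  unfold qf
  rw [← Finset.sum_sub_distrib]
  refine Finset.dvd_sum fun i _ => ?_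
  have : cc i * ph (u i) (t i) - cc i * ph (u i) (s i) =
      (t i - s i) * (cc i * (420 * (t i + s i) + u i)) := by
    unfold ph; ring
  rw [this]
  exact (h i).mul_right _

lemma card_box (q : ℕ) : (Pool.Agent.D0H11.TW.box q).card = q ^ 4 := by
  unfold Pool.Agent.D0H11.TW.box
  rw [Fintype.card_piFinset]
  simp

lemma mem_box {T : ℕ} {t : Fin 4 → ℤ} : t ∈ Pool.Agent.D0H11.TW.box T ↔ ∀ i, 0 ≤ t i ∧ t i < T := by
  unfold Pool.Agent.D0H11.TW.box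
  simp [Fintype.mem_piFinset]

/-- splitting into residue classes -/
lemma split_classes (T q : ℕ) (hq : 1 ≤ q) (f : (Fin 4 → ℤ) → ℝ) :
    ∑ t ∈ Pool.Agent.D0H11.TW.box T, f t =
      ∑ s ∈ Pool.Agent.D0H11.TW.box q, ∑ t ∈ (Pool.Agent.D0H11.TW.box T).filter (fun t => ∀ i, (q : ℤ) ∣ t i - s i), f t := by
  have hq0 : (0 : ℤ) < q := by exact_mod_cast hq
  have hmaps : ∀ t ∈ Pool.Agent.D0H11.TW.box T, (fun i => t i % (q : ℤ)) ∈ Pool.Agent.D0H11.TW.box q := by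
    intro t _
    rw [mem_box]
    intro i
    exact ⟨Int.emod_nonneg _ hq0.ne', Int.emod_lt_of_pos _ hq0⟩
  rw [← Finset.sum_fiberwise_of_maps_to hmaps]
  refine Finset.sum_congr rfl fun s hs => ?_
  refine Finset.sum_congr ?_ fun _ _ => rfl
  refine Finset.filter_congr fun t _ => ?_
  rw [mem_box] at hs
  constructor
  · intro h i
    have := congrFun h i
    change t i % (q : ℤ) = s i at this
    rw [← this]
    exact Int.dvd_self_sub_emod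
  · intro h
    funext i
    have h1 : t i % q = s i % q := (Int.modEq_iff_dvd.mpr (h i)).symm
    change t i % (q : ℤ) = s i
    rw [h1, Int.emod_eq_of_lt (hs i).1 (hs i).2]

/-- one modulus `q` -/
lemma one_q (T q : ℕ) (u : Fin 4 → ℤ) (η : ℝ) (m : ℤ) (hq : 1 ≤ q) (E : ℝ)
    (hE : ∀ s s' : Fin 4 → ℤ,
      |∑ t ∈ (Pool.Agent.D0H11.TW.box T).filter (fun t => ∀ i, (q : ℤ) ∣ t i - s i), wt u t * KK η (m - qf u t) -
      ∑ t ∈ (Pool.Agent.D0H11.TW.box T).filter (fun t => ∀ i, (q : ℤ) ∣ t i - s' i), wt u t * KK η (m - qf u t)| ≤ E) :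
    |∑ t ∈ Pool.Agent.D0H11.TW.box T, wt u t * KK η (m - qf u t) * rs q (m - qf u t) -
      AA q u m * ∑ t ∈ Pool.Agent.D0H11.TW.box T, wt u t * KK η (m - qf u t)| ≤ (q : ℝ) ^ 5 * E := by
  have hq0 : (0 : ℝ) < q := by exact_mod_cast hq
  set W : (Fin 4 → ℤ) → ℝ := fun s =>
    ∑ t ∈ (Pool.Agent.D0H11.TW.box T).filter (fun t => ∀ i, (q : ℤ) ∣ t i - s i), wt u t * KK η (m - qf u t) with hW
  have h1 : ∑ t ∈ Pool.Agent.D0H11.TW.box T, wt u t * KK η (m - qf u t) * rs q (m - qf u t) =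
      ∑ s ∈ Pool.Agent.D0H11.TW.box q, rs q (m - qf u s) * W s := by
    rw [split_classes T q hq]
    refine Finset.sum_congr rfl fun s _ => ?_
    rw [hW]
    simp only
    rw [Finset.mul_sum]
    refine Finset.sum_congr rfl fun t ht => ?_
    rw [Finset.mem_filter] at ht
    have : rs q (m - qf u t) = rs q (m - qf u s) := by
      refine rs_congr q hq _ _ ?_
      have := qf_congr q u t s ht.2
      have e : m - qf u t - (m - qf u s) = -(qf u t - qf u s) := by ring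
      rw [e]
      exact (dvd_neg).mpr this
    rw [this]; ring
  have h2 : ∑ t ∈ Pool.Agent.D0H11.TW.box T, wt u t * KK η (m - qf u t) = ∑ s ∈ Pool.Agent.D0H11.TW.box q, W s := split_classes T q hq _
  set M : ℝ := ∑ s ∈ Pool.Agent.D0H11.TW.box q, W s with hM
  have h3 : ∀ s, |W s - M / (q : ℝ) ^ 4| ≤ E := by
    intro s
    have e1 : W s - M / (q : ℝ) ^ 4 = (∑ s' ∈ Pool.Agent.D0H11.TW.box q, (W s - W s')) / (q : ℝ) ^ 4 := by
      rw [Finset.sum_sub_distrib, ← hM, Finset.sum_const, card_box]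
      rw [nsmul_eq_mul]
      push_cast
      field_simp
    rw [e1, abs_div, abs_of_pos (by positivity : (0:ℝ) < (q : ℝ) ^ 4), div_le_iff₀ (by positivity)]
    refine (Finset.abs_sum_le_sum_abs _ _).trans ?_
    calc ∑ s' ∈ Pool.Agent.D0H11.TW.box q, |W s - W s'| ≤ ∑ s' ∈ Pool.Agent.D0H11.TW.box q, E := Finset.sum_le_sum fun s' _ => hE s s'
      _ = E * (q : ℝ) ^ 4 := by
        rw [Finset.sum_const, card_box, nsmul_eq_mul]; push_cast; ring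
  rw [h1, h2]
  have h4 : ∑ s ∈ Pool.Agent.D0H11.TW.box q, rs q (m - qf u s) * W s - AA q u m * M =
      ∑ s ∈ Pool.Agent.D0H11.TW.box q, rs q (m - qf u s) * (W s - M / (q : ℝ) ^ 4) := by
    simp only [mul_sub]
    rw [Finset.sum_sub_distrib]
    congr 1
    unfold AA
    rw [← Finset.sum_mul]
    ring
  rw [h4]
  refine (Finset.abs_sum_le_sum_abs _ _).trans ?_
  calc ∑ s ∈ Pool.Agent.D0H11.TW.box q, |rs q (m - qf u s) * (W s - M / (q : ℝ) ^ 4)| ≤ ∑ s ∈ Pool.Agent.D0H11.TW.box q, (q : ℝ) * E := by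
        refine Finset.sum_le_sum fun s _ => ?_
        rw [abs_mul]
        exact mul_le_mul (abs_rs_le _ _) (h3 s) (abs_nonneg _) hq0.le
    _ = (q : ℝ) ^ 5 * E := by
        rw [Finset.sum_const, card_box, nsmul_eq_mul]; push_cast; ring

lemma ev_rpow (A δ : ℝ) (hδ : 0 < δ) : ∀ᶠ T : ℕ in atTop, A ≤ (T : ℝ) ^ δ :=
  ((tendsto_rpow_atTop hδ).comp tendsto_natCast_atTop_atTop).eventually_ge_atTop A

theorem thma (hMinor : S_MINOR) (hArc : S_ARC) (hEqui : S_EQUI) (hMain : S_MAIN)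
    (hSer : S_SER) : S_THMA := by
  classical
  intro B hB
  obtain ⟨C1, hC1, hminor⟩ := hMinor (1/20) (1/40) (by norm_num) (by norm_num) (by norm_num)
  obtain ⟨C2, hC2, hequi⟩ := hEqui
  obtain ⟨c0, hc0, T1, hmain⟩ := hMain (1/20) B (by norm_num) (by norm_num) hB
  refine ⟨c0 / (8 * 2100), by positivity, ?_⟩
  obtain ⟨T2, hT2⟩ := Filter.eventually_atTop.mp ((ev_rpow 5 (37/20) (by norm_num)).and
    ((ev_rpow (8 * C2 / c0) (11/20) (by norm_num)).and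
      (ev_rpow (C1 / (c0 / 8) ^ 2) (1/40) (by norm_num))))
  refine ⟨max (max T1 T2) 2, ?_⟩
  intro T hT u hu
  have hTT1 : T1 ≤ T := le_trans (le_trans (le_max_left _ _) (le_max_left _ _)) hT
  have hTT2 : T2 ≤ T := le_trans (le_trans (le_max_right _ _) (le_max_left _ _)) hT
  have hTT3 : 2 ≤ T := le_trans (le_max_right _ _) hT
  obtain ⟨ev1, ev2, ev3⟩ := hT2 T hTT2
  have hT1 : (1 : ℝ) ≤ T := by exact_mod_cast (by omega : 1 ≤ T)
  have hT0 : (0 : ℝ) < T := by linarith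
  set P := ⌊(T : ℝ) ^ (1/20 : ℝ)⌋₊ with hP
  set η := (T : ℝ) ^ ((1/20 : ℝ) - 2) with hη
  have hη0 : 0 < η := Real.rpow_pos_of_pos hT0 _
  have hη1 : η ≤ 1 := Real.rpow_le_one_of_one_le_of_nonpos hT1 (by norm_num)
  have hPP : (P : ℝ) ≤ (T : ℝ) ^ (1/20 : ℝ) := Nat.floor_le (by positivity)
  have hP1 : 1 ≤ P := Nat.le_floor (by
    simpa using Real.one_le_rpow hT1 (by norm_num : (0:ℝ) ≤ 1/20))
  have hPT : P ≤ T := by
    have : (P : ℝ) ≤ (T : ℝ) := by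
      refine hPP.trans ?_
      calc (T : ℝ) ^ (1/20 : ℝ) ≤ (T : ℝ) ^ (1 : ℝ) :=
            Real.rpow_le_rpow_of_exponent_le hT1 (by norm_num)
        _ = T := Real.rpow_one _
    exact_mod_cast this
  have hP0 : (0 : ℝ) ≤ P := Nat.cast_nonneg _
  have h4 : 4 * η * (P : ℝ) ^ 2 < 1 := by
    have e1 : (P : ℝ) ^ 2 ≤ (T : ℝ) ^ (1/10 : ℝ) := by
      calc (P : ℝ) ^ 2 ≤ ((T : ℝ) ^ (1/20 : ℝ)) ^ 2 := pow_le_pow_left₀ hP0 hPP 2
        _ = (T : ℝ) ^ (1/10 : ℝ) := by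
          rw [← Real.rpow_natCast, ← Real.rpow_mul hT0.le]; norm_num
    have e2 : η * (T : ℝ) ^ (1/10 : ℝ) * (T : ℝ) ^ (37/20 : ℝ) = 1 := by
      rw [hη, ← Real.rpow_add hT0, ← Real.rpow_add hT0]
      norm_num
    have e3 : 0 < η * (T : ℝ) ^ (1/10 : ℝ) := by positivity
    have e4 : η * (P : ℝ) ^ 2 ≤ η * (T : ℝ) ^ (1/10 : ℝ) := mul_le_mul_of_nonneg_left e1 hη0.le
    nlinarith
  -- the main term
  set MM : ℤ → ℝ := fun m => ∑ t ∈ Pool.Agent.D0H11.TW.box T, wt u t * KK η (m - qf u t) with hMM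
  set E : ℕ → ℝ := fun q => C2 * q * (T : ℝ) ^ 4 * (η + (T : ℝ) ^ 2 * η ^ 2) with hE
  have hsharp : ∀ m : ℤ, |∑ t ∈ Pool.Agent.D0H11.TW.box T, wt u t * KK η (m - qf u t) *
      ∑ q ∈ Icc 1 P, rs q (m - qf u t) - (∑ q ∈ Icc 1 P, AA q u m) * MM m| ≤
      2 * C2 * (T : ℝ) ^ (2 + 9/20 : ℝ) := by
    intro m
    have e1 : ∑ t ∈ Pool.Agent.D0H11.TW.box T, wt u t * KK η (m - qf u t) * ∑ q ∈ Icc 1 P, rs q (m - qf u t) =
        ∑ q ∈ Icc 1 P, ∑ t ∈ Pool.Agent.D0H11.TW.box T, wt u t * KK η (m - qf u t) * rs q (m - qf u t) := by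
      rw [Finset.sum_comm]
      refine Finset.sum_congr rfl fun t _ => ?_
      rw [Finset.mul_sum]
    rw [e1, Finset.sum_mul, ← Finset.sum_sub_distrib]
    refine (Finset.abs_sum_le_sum_abs _ _).trans ?_
    have e2 : ∀ q ∈ Icc 1 P, |∑ t ∈ Pool.Agent.D0H11.TW.box T, wt u t * KK η (m - qf u t) * rs q (m - qf u t) -
        AA q u m * MM m| ≤ 2 * C2 * (T : ℝ) ^ (2 + 8/20 : ℝ) := by
      intro q hq
      rw [Finset.mem_Icc] at hq
      have hqT : q ≤ T := hq.2.trans hPT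
      refine (one_q T q u η m hq.1 (E q) (fun s s' => hequi T q u η m (by omega) hq.1 hqT hu.1 hη0
        hη1 s s')).trans ?_
      have hqP : (q : ℝ) ≤ (T : ℝ) ^ (1/20 : ℝ) := le_trans (by exact_mod_cast hq.2) hPP
      have hq6 : (q : ℝ) ^ 6 ≤ (T : ℝ) ^ (6/20 : ℝ) := by
        calc (q : ℝ) ^ 6 ≤ ((T : ℝ) ^ (1/20 : ℝ)) ^ 6 := pow_le_pow_left₀ (Nat.cast_nonneg _) hqP 6
          _ = (T : ℝ) ^ (6/20 : ℝ) := by
            rw [← Real.rpow_natCast, ← Real.rpow_mul hT0.le]; norm_num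
      have e3 : (T : ℝ) ^ 2 * η ^ 2 = (T : ℝ) ^ (-(38/20) : ℝ) := by
        rw [hη, ← Real.rpow_natCast (T : ℝ) 2, ← Real.rpow_natCast _ 2, ← Real.rpow_mul hT0.le,
          ← Real.rpow_add hT0]
        norm_num
      have e4 : η ≤ (T : ℝ) ^ (-(38/20) : ℝ) :=
        Real.rpow_le_rpow_of_exponent_le hT1 (by norm_num)
      have e5 : η + (T : ℝ) ^ 2 * η ^ 2 ≤ 2 * (T : ℝ) ^ (-(38/20) : ℝ) := by rw [e3]; linarith
      calc (q : ℝ) ^ 5 * E q = C2 * (T : ℝ) ^ 4 * ((q : ℝ) ^ 6 * (η + (T : ℝ) ^ 2 * η ^ 2)) := by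
            rw [hE]; ring
        _ ≤ C2 * (T : ℝ) ^ 4 * ((T : ℝ) ^ (6/20 : ℝ) * (2 * (T : ℝ) ^ (-(38/20) : ℝ))) := by
            gcongr
        _ = 2 * C2 * ((T : ℝ) ^ 4 * (T : ℝ) ^ (6/20 : ℝ) * (T : ℝ) ^ (-(38/20) : ℝ)) := by ring
        _ = 2 * C2 * (T : ℝ) ^ (2 + 8/20 : ℝ) := by
            congr 1
            rw [← Real.rpow_natCast (T : ℝ) 4, ← Real.rpow_add hT0, ← Real.rpow_add hT0]
            norm_num
    refine (Finset.sum_le_sum e2).trans ?_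
    rw [Finset.sum_const, Nat.card_Icc, nsmul_eq_mul]
    have e6 : ((P + 1 - 1 : ℕ) : ℝ) = P := by simp
    rw [e6]
    calc (P : ℝ) * (2 * C2 * (T : ℝ) ^ (2 + 8/20 : ℝ)) ≤
        (T : ℝ) ^ (1/20 : ℝ) * (2 * C2 * (T : ℝ) ^ (2 + 8/20 : ℝ)) := by gcongr
      _ = 2 * C2 * ((T : ℝ) ^ (1/20 : ℝ) * (T : ℝ) ^ (2 + 8/20 : ℝ)) := by ring
      _ = 2 * C2 * (T : ℝ) ^ (2 + 9/20 : ℝ) := by
        congr 1
        rw [← Real.rpow_add hT0]
        norm_num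
  have herr : 2 * C2 * (T : ℝ) ^ (2 + 9/20 : ℝ) ≤ c0 / 4 * (T : ℝ) ^ 3 := by
    have e1 : (T : ℝ) ^ 3 = (T : ℝ) ^ (11/20 : ℝ) * (T : ℝ) ^ (2 + 9/20 : ℝ) := by
      rw [← Real.rpow_add hT0, ← Real.rpow_natCast]
      norm_num
    rw [e1]
    have e2 : 8 * C2 ≤ c0 * (T : ℝ) ^ (11/20 : ℝ) := by
      rw [div_le_iff₀ hc0] at ev2; linarith
    have e3 : 0 < (T : ℝ) ^ (2 + 9/20 : ℝ) := by positivity
    nlinarith
  -- the bad set
  set Bad := (Icc 1 (400 * T ^ 2)).filter (fun m : ℕ => (T : ℝ) ^ 2 / B ≤ m ∧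
      (∀ l : ℕ, l.Prime → 11 ≤ l → (l : ℝ) ≤ (T : ℝ) ^ (1 / 20 : ℝ) →
        ¬ (l : ℤ) ∣ 1680 * m + Qf u) ∧
      ((((Pool.Agent.D0H11.TW.box T).filter (fun t => qf u t = m)).card : ℕ) : ℝ) < c0 / (8 * 2100) * (T : ℝ) ^ 2)
    with hBad
  have hmem : ∀ m ∈ Bad, (c0 / 8 * (T : ℝ) ^ 3) ^ 2 ≤
      (∑ t ∈ (Pool.Agent.D0H11.TW.box T).filter (fun t => qf u t = (m : ℤ)), wt u t -
      ∑ t ∈ Pool.Agent.D0H11.TW.box T, wt u t * KK η (((m : ℤ) : ℝ) - qf u t) *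
        ∑ q ∈ Icc 1 P, rs q ((m : ℤ) - qf u t)) ^ 2 := by
    intro m hm
    rw [hBad, Finset.mem_filter, Finset.mem_Icc] at hm
    obtain ⟨⟨hm1, hm2⟩, hm3, hm4, hm5⟩ := hm
    have hA : (1/2 : ℝ) ≤ ∑ q ∈ Icc 1 P, AA q u (m : ℤ) := by
      refine hSer u m P hu hP1 ?_
      intro l hl hl11 hlP
      refine hm4 l hl hl11 ?_
      exact le_trans (by exact_mod_cast hlP) hPP
    have hM : c0 * (T : ℝ) ^ 3 ≤ MM m := by
      refine hmain T hTT1 u hu.1 m ?_ ?_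
      · push_cast; exact hm3
      · push_cast; exact_mod_cast hm2
    have hs := hsharp m
    have hwt : ∀ t ∈ (Pool.Agent.D0H11.TW.box T).filter (fun t => qf u t = (m : ℤ)), wt u t ≤ 2100 * T := by
      intro t ht
      rw [Finset.mem_filter, mem_box] at ht
      have h1 := (ht.1 0).2
      have h2 := (hu.1 0).2
      unfold wt
      exact_mod_cast (by omega : 840 * t 0 + 420 + u 0 ≤ 2100 * T)
    have hrw : ∑ t ∈ (Pool.Agent.D0H11.TW.box T).filter (fun t => qf u t = (m : ℤ)), wt u t ≤ c0 / 8 * (T : ℝ) ^ 3 := by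
      calc _ ≤ ∑ t ∈ (Pool.Agent.D0H11.TW.box T).filter (fun t => qf u t = (m : ℤ)), 2100 * (T : ℝ) :=
            Finset.sum_le_sum hwt
        _ = (((Pool.Agent.D0H11.TW.box T).filter (fun t => qf u t = (m : ℤ))).card : ℝ) * (2100 * T) := by
            rw [Finset.sum_const, nsmul_eq_mul]
        _ ≤ (c0 / (8 * 2100) * (T : ℝ) ^ 2) * (2100 * T) :=
            mul_le_mul_of_nonneg_right hm5.le (by positivity)
        _ = _ := by ring
    have hprod : c0 / 2 * (T : ℝ) ^ 3 ≤ (∑ q ∈ Icc 1 P, AA q u (m : ℤ)) * MM m := by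
      have : 0 ≤ c0 * (T : ℝ) ^ 3 := by positivity
      nlinarith
    have hlow : c0 / 4 * (T : ℝ) ^ 3 ≤ ∑ t ∈ Pool.Agent.D0H11.TW.box T, wt u t * KK η (((m : ℤ) : ℝ) - qf u t) *
        ∑ q ∈ Icc 1 P, rs q ((m : ℤ) - qf u t) := by
      have := (abs_le.mp hs).1
      linarith
    rw [← neg_sub, neg_sq]
    exact pow_le_pow_left₀ (by positivity) (by linarith) 2
  have harc := hArc (Fin 4 → ℤ) (Pool.Agent.D0H11.TW.box T) (qf u) (wt u) P η hP1 hη0 h4 (Bad.image (fun m : ℕ => (m : ℤ)))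
  rw [Finset.sum_image (by intro a _ b _ h; simpa using h)] at harc
  have hmin := hminor T u hTT3 hu.1
  have hsum : (Bad.card : ℝ) * (c0 / 8 * (T : ℝ) ^ 3) ^ 2 ≤
      C1 * (T : ℝ) ^ (8 - 2 * (1/20) + 1/40 : ℝ) := by
    refine le_trans ?_ (harc.trans hmin)
    rw [← nsmul_eq_mul]
    exact Finset.card_nsmul_le_sum _ _ _ hmem
  have hfin : C1 * (T : ℝ) ^ (8 - 2 * (1/20) + 1/40 : ℝ) ≤
      (T : ℝ) ^ (2 - 1/20 : ℝ) * (c0 / 8 * (T : ℝ) ^ 3) ^ 2 := by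
    have e1 : C1 ≤ (c0 / 8) ^ 2 * (T : ℝ) ^ (1/40 : ℝ) := by
      rw [div_le_iff₀ (by positivity)] at ev3; linarith
    calc C1 * (T : ℝ) ^ (8 - 2 * (1/20) + 1/40 : ℝ) ≤
        ((c0 / 8) ^ 2 * (T : ℝ) ^ (1/40 : ℝ)) * (T : ℝ) ^ (8 - 2 * (1/20) + 1/40 : ℝ) :=
          mul_le_mul_of_nonneg_right e1 (by positivity)
      _ = (c0 / 8) ^ 2 * ((T : ℝ) ^ (1/40 : ℝ) * (T : ℝ) ^ (8 - 2 * (1/20) + 1/40 : ℝ)) := by ring
      _ = (c0 / 8) ^ 2 * ((T : ℝ) ^ (2 - 1/20 : ℝ) * (T : ℝ) ^ 6) := by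
        congr 1
        rw [← Real.rpow_natCast (T : ℝ) 6, ← Real.rpow_add hT0, ← Real.rpow_add hT0]
        norm_num
      _ = _ := by ring
  have hpos : 0 < (c0 / 8 * (T : ℝ) ^ 3) ^ 2 := by positivity
  have := hsum.trans hfin
  exact le_of_mul_le_mul_right this hpos

end Pool.Agent.D0H73.TW
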